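import Pool.Agent.Lib.MP_b414a3_an.BD.Final

/-!
# Approximation of a norm and of its dual norm by real analytic norms of power type 2
-/

set_option autoImplicit false

namespace Pool.Agent.Results.MP_b414a3_an.AnalyticDualPair

open Pool.Agent.Lib.MP_b414a3_an.BD

/-- Every equivalent norm `N` on a separable real Hilbert space `H` is approximated, together with its dual
norm `dual N` (on `H`, by the inner product), by norms `L` such that `L` and `dual L` are both real analytic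
off the origin, and, for some `c > 0`, all the functions `L² - c‖·‖²`, `c⁻¹‖·‖² - L²`, `(dual L)² - c‖·‖²`,
`c⁻¹‖·‖² - (dual L)²` are convex. -/
theorem result {H : Type*} [NormedAddCommGroup H] [InnerProductSpace ℝ H] [CompleteSpace H]
    [TopologicalSpace.SeparableSpace H] {N : H → ℝ} (hN1 : ∀ x y, N (x + y) ≤ N x + N y)
    (hN2 : ∀ (r : ℝ) (x : H), N (r • x) = |r| * N x)
    (hN3 : ∃ a b : ℝ, 0 < a ∧ 0 < b ∧ ∀ x, a * ‖x‖ ≤ N x ∧ N x ≤ b * ‖x‖) {ε : ℝ} (hε : 0 < ε) :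
    ∃ (L : H → ℝ) (c : ℝ), (∀ x y, L (x + y) ≤ L x + L y) ∧
      (∀ (r : ℝ) (x : H), L (r • x) = |r| * L x) ∧
      (∃ a b : ℝ, 0 < a ∧ 0 < b ∧ ∀ x, a * ‖x‖ ≤ L x ∧ L x ≤ b * ‖x‖) ∧
      (∀ x, |N x - L x| ≤ ε * ‖x‖) ∧ (∀ x, |dual N x - dual L x| ≤ ε * ‖x‖) ∧
      AnalyticOnNhd ℝ L {x | x ≠ 0} ∧ AnalyticOnNhd ℝ (dual L) {x | x ≠ 0} ∧ 0 < c ∧
      ConvexOn ℝ Set.univ (fun x => L x ^ 2 - c * ‖x‖ ^ 2) ∧
      ConvexOn ℝ Set.univ (fun x => c⁻¹ * ‖x‖ ^ 2 - L x ^ 2) ∧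
      ConvexOn ℝ Set.univ (fun x => dual L x ^ 2 - c * ‖x‖ ^ 2) ∧
      ConvexOn ℝ Set.univ (fun x => c⁻¹ * ‖x‖ ^ 2 - dual L x ^ 2) := by
  obtain ⟨a, b, ha, hb, hab⟩ := hN3
  have h : IsNorm N a b := ⟨hN1, hN2, ha, hb, fun x => (hab x).1, fun x => (hab x).2⟩
  obtain ⟨L, a', b', c, hL, hc, h1, h2, h3, h4, h5, h6, h7, h8⟩ := final h hε
  exact ⟨L, c, hL.add, hL.smul, ⟨a', b', hL.pos, hL.posb, fun x => ⟨hL.lower x, hL.upper x⟩⟩, h1, h2, h3,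
    h4, hc, h5, h6, h7, h8⟩

end Pool.Agent.Results.MP_b414a3_an.AnalyticDualPair
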