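import Pool.Agent.Lib.MP_b414a3_an.GA.NMain
import Pool.Agent.Lib.MP_b414a3_an.GA.AllMain

set_option autoImplicit false

/-!
# Global real analytic approximation of convex functions on separable Hilbert spaces

`result`: every continuous convex function `f` on an open convex subset `U` of a separable real Hilbert
space with `f x ≥ l x + a ‖x‖ - b` (`l` continuous linear, `a > 0`; no condition when `U` is bounded) has
real analytic convex majorants `g` on `U` with `f < g ≤ f + η (f - l)`, for every positive continuous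
function `η`; in particular `f < g ≤ f + ε` on the whole of `U`.

`analytic_norms` (corollary, question Q1 on every separable real Hilbert space): every equivalent norm is
approximated, uniformly on the ball, by equivalent norms which are real analytic off the origin.

`no_growth` (corollary): with no growth condition at all, error `ε (1 + ‖x‖)` on all of `U`.
-/

namespace Pool.Agent.Results.MP_b414a3_an.GlobalAnalytic

theorem result {H : Type*} [NormedAddCommGroup H] [InnerProductSpace ℝ H] [CompleteSpace H]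
    [TopologicalSpace.SeparableSpace H] {U : Set H} (hU : IsOpen U) {f : H → ℝ}
    (hf : ConvexOn ℝ U f) (hc : ContinuousOn f U) (l : H →L[ℝ] ℝ) {a b : ℝ} (ha : 0 < a)
    (hab : ∀ x ∈ U, l x + a * ‖x‖ - b ≤ f x) {η : ℝ → ℝ} (hη : Continuous η)
    (hη0 : ∀ s, 0 < η s) :
    ∃ g : H → ℝ, AnalyticOnNhd ℝ g U ∧ ConvexOn ℝ U g ∧
      ∀ x ∈ U, f x < g x ∧ g x ≤ f x + η (f x - l x) :=
  Pool.Agent.Lib.MP_b414a3_an.GA.strong hU hf hc l ha hab hη hη0

/-- Corollary: question Q1, on every separable real Hilbert space. -/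
theorem analytic_norms {H : Type*} [NormedAddCommGroup H] [InnerProductSpace ℝ H] [CompleteSpace H]
    [TopologicalSpace.SeparableSpace H] {N : H → ℝ} (hN1 : ∀ x y, N (x + y) ≤ N x + N y)
    (hN2 : ∀ (c : ℝ) (x : H), N (c • x) = |c| * N x)
    (hN3 : ∃ a b : ℝ, 0 < a ∧ 0 < b ∧ ∀ x, a * ‖x‖ ≤ N x ∧ N x ≤ b * ‖x‖) {ε : ℝ} (hε : 0 < ε) :
    ∃ M : H → ℝ, (∀ x y, M (x + y) ≤ M x + M y) ∧ (∀ (c : ℝ) (x : H), M (c • x) = |c| * M x) ∧
      (∃ a b : ℝ, 0 < a ∧ 0 < b ∧ ∀ x, a * ‖x‖ ≤ M x ∧ M x ≤ b * ‖x‖) ∧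
      AnalyticOnNhd ℝ M {x | x ≠ 0} ∧ ∀ x, |N x - M x| ≤ ε * ‖x‖ :=
  Pool.Agent.Lib.MP_b414a3_an.GA.norm_main hN1 hN2 hN3 hε

/-- Corollary: no growth condition, error `ε (1 + ‖x‖)`. -/
theorem no_growth {H : Type*} [NormedAddCommGroup H] [InnerProductSpace ℝ H] [CompleteSpace H]
    [TopologicalSpace.SeparableSpace H] {U : Set H} (hU : IsOpen U) {f : H → ℝ}
    (hf : ConvexOn ℝ U f) (hc : ContinuousOn f U) {ε : ℝ} (hε : 0 < ε) :
    ∃ g : H → ℝ, AnalyticOnNhd ℝ g U ∧ ConvexOn ℝ U g ∧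
      ∀ x ∈ U, f x < g x ∧ g x ≤ f x + ε * (1 + ‖x‖) :=
  Pool.Agent.Lib.MP_b414a3_an.GA.all_main hU hf hc hε

end Pool.Agent.Results.MP_b414a3_an.GlobalAnalytic
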