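import Pool.Agent.Lib.MP_b414a3_an.LP.FinalG

/-!
# Approximation of a convex function and of its conjugate by real analytic functions
-/

set_option autoImplicit false

namespace Pool.Agent.Results.MP_b414a3_an.LegendrePair

open Pool.Agent.Lib.MP_b414a3_an.LP

/-- Let `f` be a continuous convex function on a separable real Hilbert space whose conjugate
`conj f y = sup_x (⟪x, y⟫ - f x)` is finite on a set `dom f` with nonempty interior, and `ε > 0`. There is a
real analytic convex function `g` with `f ≤ g ≤ f + ε` everywhere whose conjugate is real analytic on the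
interior of `dom f`; `dom g = dom f`, `conj f - ε ≤ conj g ≤ conj f` on `dom f`, and the gradients of `g` and
of `conj g` are inverse bijections between `H` and the interior of `dom f`. -/
theorem result {H : Type*} [NormedAddCommGroup H] [InnerProductSpace ℝ H] [CompleteSpace H]
    [TopologicalSpace.SeparableSpace H] {f : H → ℝ} (hf : ConvexOn ℝ Set.univ f) (hc : Continuous f)
    (hd : (interior (dom f)).Nonempty) {ε : ℝ} (hε : 0 < ε) :
    ∃ g : H → ℝ, AnalyticOnNhd ℝ g Set.univ ∧ ConvexOn ℝ Set.univ g ∧
      (∀ x, f x ≤ g x ∧ g x ≤ f x + ε) ∧ dom g = dom f ∧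
      AnalyticOnNhd ℝ (conj g) (interior (dom f)) ∧ ConvexOn ℝ (dom f) (conj g) ∧
      (∀ y ∈ dom f, conj f y - ε ≤ conj g y ∧ conj g y ≤ conj f y) ∧
      (∀ x, gradient g x ∈ interior (dom f) ∧ gradient (conj g) (gradient g x) = x) ∧
      ∀ y ∈ interior (dom f), gradient g (gradient (conj g) y) = y :=
  finalG hf hc hd hε

end Pool.Agent.Results.MP_b414a3_an.LegendrePair
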