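import Pool.Agent.Lib.MP_b414a3_an.PN.MainU

/-!
# Norms on `ℓ₂` that are far from all uniformly analytic functions
-/

set_option autoImplicit false

namespace Pool.Agent.Results.MP_b414a3_an.UniformlyAnalyticNorms

open Pool.Agent.Lib.MP_b414a3_an.PN

/-- Let `H` be a real inner product space with an orthonormal sequence `e` and `A ≥ 1`. There is a norm `N` on
`H` with `‖x‖ ≤ N x ≤ A ‖x‖` which is not closer than `(A - 1) / 2`, on the unit ball, to any function `F` that is
uniformly analytic on all shells `a ≤ ‖x‖ ≤ 1`, `a > 0` (the power series of `F` at the points of a shell have a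
common radius and a common bound). -/
theorem result {H : Type*} [NormedAddCommGroup H] [InnerProductSpace ℝ H] (e : ℕ → H) (he : Orthonormal ℝ e)
    (A : ℝ) (hA : 1 ≤ A) :
    ∃ N : H → ℝ,
      (∀ x y, N (x + y) ≤ N x + N y) ∧ (∀ (t : ℝ) x, N (t • x) = |t| * N x) ∧
      (∀ x, ‖x‖ ≤ N x ∧ N x ≤ A * ‖x‖) ∧
      ∀ F : H → ℝ, UniformlyAnalytic F → ∀ c < (A - 1) / 2, ∃ x, ‖x‖ ≤ 1 ∧ c < |N x - F x| :=
  finalU e he A hA

end Pool.Agent.Results.MP_b414a3_an.UniformlyAnalyticNorms
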